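import Pool.Agent.L7h28.HF.Stm

set_option autoImplicit false

/-! Project HF, part CNT. -/

namespace Pool.Agent.L7h29.HF

open Pool.Agent.L7h28.HF

theorem pow_unique {a B C s t : ℝ} (ha : a ≠ 0) (hd : B ^ 2 - 4 * a * C = 0) (hs : 0 < s)
    (ht : 0 < t) (h1 : a * s ^ 8 + B * s ^ 4 + C = 0) (h2 : a * t ^ 8 + B * t ^ 4 + C = 0) :
    s = t := by
  have e1 : (2 * a * s ^ 4 + B) ^ 2 = 0 := by
    have : (2 * a * s ^ 4 + B) ^ 2 = 4 * a * (a * s ^ 8 + B * s ^ 4 + C) + (B ^ 2 - 4 * a * C) := by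
      ring
    rw [this, h1, hd]
    ring
  have e2 : (2 * a * t ^ 4 + B) ^ 2 = 0 := by
    have : (2 * a * t ^ 4 + B) ^ 2 = 4 * a * (a * t ^ 8 + B * t ^ 4 + C) + (B ^ 2 - 4 * a * C) := by
      ring
    rw [this, h2, hd]
    ring
  have f1 := pow_eq_zero_iff (two_ne_zero) |>.1 e1
  have f2 := pow_eq_zero_iff (two_ne_zero) |>.1 e2
  have f3 : s ^ 4 = t ^ 4 := by
    have h2a : (2 * a) ≠ 0 := mul_ne_zero two_ne_zero ha
    apply mul_left_cancel₀ h2a
    linarith
  exact (pow_left_inj₀ hs.le ht.le (by norm_num)).1 f3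

theorem s_CNT (hZER : S_ZER) (hDSC : S_DSC) : S_CNT := by
  classical
  intro a b c α n K ha hNS hα hPc hdisj hsp
  choose t1 t2 h1 h2 h3 hs1 hs2 using hsp
  obtain ⟨d, hd⟩ := hDSC.1 a b c
  have hdne : ∃ θ, frm 8 d θ ≠ 0 := ⟨α, by rw [← hd α]; exact hα.ne⟩
  have hcne : ∃ θ, frm 8 c θ ≠ 0 := by
    by_contra hc
    push Not at hc
    apply hNS 0 0
    · unfold G
      rw [hc 0]
      ring
    · have e : (fun x : ℝ => G a b c x 0) = fun _ => (0 : ℝ) := by
        funext x
        unfold G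
        rw [hc x]
        ring
      rw [e]
      exact hasDerivAt_const _ _
    · have e : HasDerivAt (fun x : ℝ => a * x ^ 8 + frm 4 b 0 * x ^ 4 + frm 8 c 0)
          (a * (8 * (0 : ℝ) ^ 7) + frm 4 b 0 * (4 * (0 : ℝ) ^ 3)) 0 := by
        have p8 := (hasDerivAt_pow 8 (0 : ℝ)).const_mul a
        have p4 := (hasDerivAt_pow 4 (0 : ℝ)).const_mul (frm 4 b 0)
        simpa using (p8.add p4).add_const (frm 8 c 0)
      have e0 : (a * (8 * (0 : ℝ) ^ 7) + frm 4 b 0 * (4 * (0 : ℝ) ^ 3)) = 0 := by ring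
      rw [e0] at e
      exact e
  let ang : Fin n × Bool → ℝ := fun p => if p.2 then t1 p.1 else t2 p.1
  have hang1 : ∀ p, α < ang p := by
    rintro ⟨i, s⟩
    cases s
    · exact (h1 i).trans (h2 i)
    · exact h1 i
  have hang2 : ∀ p, ang p < α + Real.pi := by
    rintro ⟨i, s⟩
    cases s
    · exact h3 i
    · exact (h2 i).trans (h3 i)
  have hangsp : ∀ p : Fin n × Bool, Sp a b c (K p.1) (ang p) := by
    rintro ⟨i, s⟩
    cases s
    · exact hs2 i
    · exact hs1 i
  have hinj : ∀ p q : Fin n × Bool, p.1 = q.1 → ang p = ang q → p = q := by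
    rintro ⟨i, s⟩ ⟨j, s'⟩ hij hpq
    simp only at hij
    subst hij
    cases s <;> cases s'
    · rfl
    · exact absurd hpq (h2 i).ne'
    · exact absurd hpq (h2 i).ne
    · rfl
  let P : Fin n × Bool → Prop := fun p => (ang p, (0 : ℝ)) ∈ K p.1 ∧ frm 8 c (ang p) = 0
  have hcard : (Finset.univ.filter P).card + (Finset.univ.filter (fun p => ¬ P p)).card = n * 2 := by
    rw [Finset.card_filter_add_card_filter_not]
    simp
  have hA0 : ((Finset.univ.filter P).image ang).card = (Finset.univ.filter P).card := by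
    apply Finset.card_image_of_injOn
    intro p hp q hq hpq
    have hp' : P p := by simpa using hp
    have hq' : P q := by simpa using hq
    apply hinj p q _ hpq
    apply hdisj p.1 q.1 (ang p, 0) hp'.1
    rw [hpq]
    exact hq'.1
  have hA1 : ((Finset.univ.filter (fun p => ¬ P p)).image ang).card =
      (Finset.univ.filter (fun p => ¬ P p)).card := by
    apply Finset.card_image_of_injOn
    intro p hp q hq hpq
    have hp' : ¬ P p := by simpa using hp
    have hq' : ¬ P q := by simpa using hq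
    apply hinj p q _ hpq
    obtain ⟨τ, hτ, hτK, hτd⟩ := (hangsp p).resolve_left hp'
    obtain ⟨σ, hσ, hσK, hσd⟩ := (hangsp q).resolve_left hq'
    have g1 := (hPc p.1).sub _ hτK
    have g2 := (hPc q.1).sub _ hσK
    rw [← hpq] at g2 hσK
    have hts : τ = σ := pow_unique ha hτd hτ hσ g1 g2
    apply hdisj p.1 q.1 (ang p, τ) hτK
    rw [hts]
    exact hσK
  have hB0 : ((Finset.univ.filter P).image ang).card ≤ 8 := by
    apply hZER c α hcne
    intro θ hθ
    rw [Finset.mem_image] at hθ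
    obtain ⟨p, hp, rfl⟩ := hθ
    have hp' : P p := by simpa using hp
    exact ⟨(hang1 p).le, hang2 p, hp'.2⟩
  have hB1 : ((Finset.univ.filter (fun p => ¬ P p)).image ang).card ≤ 8 := by
    apply hZER d α hdne
    intro θ hθ
    rw [Finset.mem_image] at hθ
    obtain ⟨p, hp, rfl⟩ := hθ
    have hp' : ¬ P p := by simpa using hp
    obtain ⟨τ, hτ, hτK, hτd⟩ := (hangsp p).resolve_left hp'
    exact ⟨(hang1 p).le, hang2 p, by rw [← hd]; exact hτd⟩
  refine ⟨by omega, fun hno => ?_⟩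
  have hE : (Finset.univ.filter P).card = 0 := by
    rw [Finset.card_eq_zero, Finset.filter_eq_empty_iff]
    intro p _ hp
    exact hno p.1 (ang p) (hang1 p) (hang2 p) hp.1
  omega

end Pool.Agent.L7h29.HF
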