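import Pool.Agent.L7h64.HF.Stm2
import Pool.Agent.L7h29.HF.Cnt

set_option autoImplicit false

/-! Project HF, second step, part CN2. -/

namespace Pool.Agent.L7h29.HF

open Pool.Agent.L7h28.HF Pool.Agent.L7h64.HF

theorem s_CN2 (hZER : S_ZER) (hDSC : S_DSC) : S_CN2 := by
  classical
  intro a b c α s s' n K ha hNS hα hPc hdisj hαs hss' hs'π hDs hDs' hsp
  choose t1 t2 h1 h2 h3 hs1 hs2 using hsp
  obtain ⟨d, hd⟩ := hDSC.1 a b c
  have hdne : ∃ θ, frm 8 d θ ≠ 0 := ⟨α, by rw [← hd α]; exact hα.ne⟩
  have hcne : ∃ θ, frm 8 c θ ≠ 0 := by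
    by_contra hc
    push Not at hc
    apply hNS 0 0
    · unfold G
      rw [hc 0]
      ring
    · have e : (fun x : ℝ => G a b c x 0) = fun _ => (0 : ℝ) := by
        funext x
        unfold G
        rw [hc x]
        ring
      rw [e]
      exact hasDerivAt_const _ _
    · have e : HasDerivAt (fun x : ℝ => a * x ^ 8 + frm 4 b 0 * x ^ 4 + frm 8 c 0)
          (a * (8 * (0 : ℝ) ^ 7) + frm 4 b 0 * (4 * (0 : ℝ) ^ 3)) 0 := by
        have p8 := (hasDerivAt_pow 8 (0 : ℝ)).const_mul a
        have p4 := (hasDerivAt_pow 4 (0 : ℝ)).const_mul (frm 4 b 0)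
        simpa using (p8.add p4).add_const (frm 8 c 0)
      have e0 : (a * (8 * (0 : ℝ) ^ 7) + frm 4 b 0 * (4 * (0 : ℝ) ^ 3)) = 0 := by ring
      rw [e0] at e
      exact e
  let ang : Fin n × Bool → ℝ := fun p => if p.2 then t1 p.1 else t2 p.1
  have hang1 : ∀ p, α < ang p := by
    rintro ⟨i, s⟩
    cases s
    · exact (h1 i).trans (h2 i)
    · exact h1 i
  have hang2 : ∀ p, ang p < α + Real.pi := by
    rintro ⟨i, s⟩
    cases s
    · exact h3 i
    · exact (h2 i).trans (h3 i)
  have hangsp : ∀ p : Fin n × Bool, SpX a b c s s' (K p.1) (ang p) := by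
    rintro ⟨i, s⟩
    cases s
    · exact hs2 i
    · exact hs1 i
  have hinj : ∀ p q : Fin n × Bool, p.1 = q.1 → ang p = ang q → p = q := by
    rintro ⟨i, s⟩ ⟨j, s'⟩ hij hpq
    simp only at hij
    subst hij
    cases s <;> cases s'
    · rfl
    · exact absurd hpq (h2 i).ne'
    · exact absurd hpq (h2 i).ne
    · rfl
  let P : Fin n × Bool → Prop := fun p => (ang p, (0 : ℝ)) ∈ K p.1 ∧ frm 8 c (ang p) = 0
  have hcard : (Finset.univ.filter P).card + (Finset.univ.filter (fun p => ¬ P p)).card = n * 2 := by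
    rw [Finset.card_filter_add_card_filter_not]
    simp
  have hA0 : ((Finset.univ.filter P).image ang).card = (Finset.univ.filter P).card := by
    apply Finset.card_image_of_injOn
    intro p hp q hq hpq
    have hp' : P p := by simpa using hp
    have hq' : P q := by simpa using hq
    apply hinj p q _ hpq
    apply hdisj p.1 q.1 (ang p, 0) hp'.1
    rw [hpq]
    exact hq'.1
  have hA1 : ((Finset.univ.filter (fun p => ¬ P p)).image ang).card =
      (Finset.univ.filter (fun p => ¬ P p)).card := by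
    apply Finset.card_image_of_injOn
    intro p hp q hq hpq
    have hp' : ¬ P p := by simpa using hp
    have hq' : ¬ P q := by simpa using hq
    apply hinj p q _ hpq
    obtain ⟨-, -, τ, hτ, hτK, hτd⟩ := (hangsp p).resolve_left hp'
    obtain ⟨-, -, σ, hσ, hσK, hσd⟩ := (hangsp q).resolve_left hq'
    have g1 := (hPc p.1).sub _ hτK
    have g2 := (hPc q.1).sub _ hσK
    rw [← hpq] at g2 hσK
    have hts : τ = σ := pow_unique ha hτd hτ hσ g1 g2
    apply hdisj p.1 q.1 (ang p, τ) hτK
    rw [hts]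
    exact hσK
  have hB0 : ((Finset.univ.filter P).image ang).card ≤ 8 := by
    apply hZER c α hcne
    intro θ hθ
    rw [Finset.mem_image] at hθ
    obtain ⟨p, hp, rfl⟩ := hθ
    have hp' : P p := by simpa using hp
    exact ⟨(hang1 p).le, hang2 p, hp'.2⟩
  have hn1 : s ∉ insert s' ((Finset.univ.filter (fun p => ¬ P p)).image ang) := by
    intro h
    rcases Finset.mem_insert.1 h with h | h
    · exact absurd h hss'.ne
    · rw [Finset.mem_image] at h
      obtain ⟨p, hp, hps⟩ := h
      have hp' : ¬ P p := by simpa using hp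
      exact ((hangsp p).resolve_left hp').1 hps
  have hn2 : s' ∉ (Finset.univ.filter (fun p => ¬ P p)).image ang := by
    intro h
    rw [Finset.mem_image] at h
    obtain ⟨p, hp, hps⟩ := h
    have hp' : ¬ P p := by simpa using hp
    exact ((hangsp p).resolve_left hp').2.1 hps
  have hB1 : (insert s (insert s'
      ((Finset.univ.filter (fun p => ¬ P p)).image ang))).card ≤ 8 := by
    apply hZER d α hdne
    intro θ hθ
    rw [Finset.mem_insert, Finset.mem_insert, Finset.mem_image] at hθ
    rcases hθ with rfl | rfl | ⟨p, hp, rfl⟩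
    · exact ⟨hαs.le, hss'.trans hs'π, by rw [← hd]; exact hDs⟩
    · exact ⟨(hαs.trans hss').le, hs'π, by rw [← hd]; exact hDs'⟩
    · have hp' : ¬ P p := by simpa using hp
      obtain ⟨-, -, τ, hτ, hτK, hτd⟩ := (hangsp p).resolve_left hp'
      exact ⟨(hang1 p).le, hang2 p, by rw [← hd]; exact hτd⟩
  rw [Finset.card_insert_of_notMem hn1, Finset.card_insert_of_notMem hn2] at hB1
  refine ⟨by omega, fun hno => ?_⟩
  have hE : (Finset.univ.filter P).card = 0 := by
    rw [Finset.card_eq_zero, Finset.filter_eq_empty_iff]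
    intro p _ hp
    exact hno p.1 (ang p) (hang1 p) (hang2 p) hp.1
  omega

end Pool.Agent.L7h29.HF
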